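import Pool.Agent.Helper26.LN6.Base

/-!
LN6, leaf B2: the elements `zeta`, `zeta'`, `delta` and the subgroup `H` (group theory only, `5 ≤ k`).
-/

namespace LN6

namespace WSys

variable {k : ℕ} {Γ F : Type} [Group Γ] [MulAction Γ F] (W : WSys k Γ F)

/-- `lam 4 = zeta * zeta'` -/
theorem lam4_eq : W.lam 4 = W.zeta * W.zeta' := by
  change W.s 3 * (W.s 2 * W.lam 2 * W.s 2) * W.s 3 = _
  unfold zeta zeta' gg
  group

theorem lam4_mem_of {S : Subgroup Γ} (h1 : W.zeta ∈ S) (h2 : W.zeta' ∈ S) : W.lam 4 ∈ S := by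
  rw [W.lam4_eq]
  exact mul_mem h1 h2

/-! ### `zeta`, `zeta'` commute with `s 0` and `s 2` -/

theorem gg_commute_s0 (hk : 5 ≤ k) : Commute W.gg (W.s 0) := by
  have h2 : Commute (W.s 2) (W.s 0) := (W.commute_s 0 2 (by omega) (by omega)).symm
  have h3 : Commute (W.s 3) (W.s 0) := (W.commute_s 0 3 (by omega) (by omega)).symm
  exact (h2.mul_left h3).inv_left

theorem zeta_commute_s0 (hk : 5 ≤ k) : Commute W.zeta (W.s 0) := by
  have h2 : Commute (W.s 2) (W.s 0) := (W.commute_s 0 2 (by omega) (by omega)).symm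
  have h3 : Commute (W.s 3) (W.s 0) := (W.commute_s 0 3 (by omega) (by omega)).symm
  exact ((h3.mul_left h2).mul_left h2).mul_left h3

theorem zeta_commute_s2 (hk : 5 ≤ k) : Commute W.zeta (W.s 2) := by
  have hb := W.braid 2 (by omega)
  simp only [Nat.reduceAdd] at hb
  change W.zeta * W.s 2 = W.s 2 * W.zeta
  unfold zeta
  calc W.s 3 * W.s 2 * W.s 2 * W.s 3 * W.s 2 = W.s 3 * W.s 2 * (W.s 2 * W.s 3 * W.s 2) := by group
    _ = W.s 3 * W.s 2 * (W.s 3 * W.s 2 * W.s 3) := by rw [hb]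
    _ = (W.s 3 * W.s 2 * W.s 3) * (W.s 2 * W.s 3) := by group
    _ = (W.s 2 * W.s 3 * W.s 2) * (W.s 2 * W.s 3) := by rw [hb]
    _ = W.s 2 * (W.s 3 * W.s 2 * W.s 2 * W.s 3) := by group

theorem zeta'_commute_s0 (hk : 5 ≤ k) : Commute W.zeta' (W.s 0) := by
  have h := W.gg_commute_s0 hk
  have hl : Commute (W.lam 2) (W.s 0) := W.lam_commute_near 2 (by omega) 0 le_rfl
  exact (h.mul_left hl).mul_left h.inv_left

/-- `s 2 * gg = gg * s 3` -/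
theorem s2_mul_gg (hk : 5 ≤ k) : W.s 2 * W.gg = W.gg * W.s 3 := by
  have hb := W.braid 2 (by omega)
  simp only [Nat.reduceAdd] at hb
  unfold gg
  rw [mul_inv_eq_iff_eq_mul, mul_assoc, eq_inv_mul_iff_mul_eq, hb, mul_assoc]

theorem zeta'_commute_s2 (hk : 5 ≤ k) : Commute W.zeta' (W.s 2) := by
  have h := W.s2_mul_gg hk
  have hl : Commute (W.lam 2) (W.s 3) := W.lam_commute_far 2 3 le_rfl (by omega)
  have h' : W.gg⁻¹ * W.s 2 = W.s 3 * W.gg⁻¹ := by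
    rw [inv_mul_eq_iff_eq_mul, ← mul_assoc, ← h, mul_inv_cancel_right]
  change W.zeta' * W.s 2 = W.s 2 * W.zeta'
  unfold zeta'
  calc W.gg * W.lam 2 * W.gg⁻¹ * W.s 2 = W.gg * W.lam 2 * (W.gg⁻¹ * W.s 2) := by group
    _ = W.gg * W.lam 2 * (W.s 3 * W.gg⁻¹) := by rw [h']
    _ = W.gg * (W.lam 2 * W.s 3) * W.gg⁻¹ := by group
    _ = W.gg * (W.s 3 * W.lam 2) * W.gg⁻¹ := by rw [hl.eq]
    _ = (W.gg * W.s 3) * W.lam 2 * W.gg⁻¹ := by group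
    _ = (W.s 2 * W.gg) * W.lam 2 * W.gg⁻¹ := by rw [h]
    _ = W.s 2 * (W.gg * W.lam 2 * W.gg⁻¹) := by group

/-! ### `delta` -/

theorem delta_mem_Bm (W : WSys k Γ F) : W.delta ∈ W.Bm 4 := by
  have h0 : W.s 0 ∈ W.Bm 4 := W.s_mem_Bm (by omega)
  have h1 : W.s 1 ∈ W.Bm 4 := W.s_mem_Bm (by omega)
  have h2 : W.s 2 ∈ W.Bm 4 := W.s_mem_Bm (by omega)
  exact mul_mem (mul_mem (mul_mem h1 h2) h0) h1

theorem delta_s0_conj (hk : 5 ≤ k) : W.delta * W.s 0 * W.delta⁻¹ = W.s 2 := by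
  rw [W.delta_s0 (by omega), mul_inv_cancel_right]

theorem delta_s2_conj (hk : 5 ≤ k) : W.delta * W.s 2 * W.delta⁻¹ = W.s 0 := by
  rw [W.delta_s2 (by omega), mul_inv_cancel_right]

theorem delta_inv_s0_conj (hk : 5 ≤ k) : W.delta⁻¹ * W.s 0 * W.delta = W.s 2 := by
  rw [mul_assoc, inv_mul_eq_iff_eq_mul, W.delta_s2 (by omega)]

theorem delta_inv_s2_conj (hk : 5 ≤ k) : W.delta⁻¹ * W.s 2 * W.delta = W.s 0 := by
  rw [mul_assoc, inv_mul_eq_iff_eq_mul, W.delta_s0 (by omega)]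

/-- `delta * s 3 * delta⁻¹ = gg * s 1 * gg⁻¹` -/
theorem delta_s3_conj (hk : 5 ≤ k) : W.delta * W.s 3 * W.delta⁻¹ = W.gg * W.s 1 * W.gg⁻¹ := by
  have b1 := W.braid 1 (by omega)
  have b2 := W.braid 2 (by omega)
  simp only [Nat.reduceAdd] at b1 b2
  have c03 : W.s 0 * W.s 3 = W.s 3 * W.s 0 := W.comm 0 3 (by omega) (by omega)
  have c13 : W.s 1 * W.s 3 = W.s 3 * W.s 1 := W.comm 1 3 (by omega) (by omega)
  -- both sides multiplied by `s 3` on the left and cleared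
  have e1 : W.s 0 * W.s 1 * W.s 3 = W.s 3 * (W.s 0 * W.s 1) := by
    rw [mul_assoc, c13, ← mul_assoc, c03, mul_assoc]
  have e2 : W.delta * W.s 3 * W.delta⁻¹ = W.s 1 * (W.s 2 * W.s 3 * (W.s 2)⁻¹) * (W.s 1)⁻¹ := by
    unfold delta
    calc W.s 1 * W.s 2 * W.s 0 * W.s 1 * W.s 3 * (W.s 1 * W.s 2 * W.s 0 * W.s 1)⁻¹
        = W.s 1 * W.s 2 * (W.s 0 * W.s 1 * W.s 3) * (W.s 1 * W.s 2 * W.s 0 * W.s 1)⁻¹ := by group
      _ = W.s 1 * W.s 2 * (W.s 3 * (W.s 0 * W.s 1)) * (W.s 1 * W.s 2 * W.s 0 * W.s 1)⁻¹ := by rw [e1]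
      _ = _ := by group
  have e3 : W.s 2 * W.s 3 * (W.s 2)⁻¹ = (W.s 3)⁻¹ * W.s 2 * W.s 3 := by
    rw [mul_inv_eq_iff_eq_mul, mul_assoc, mul_assoc, eq_inv_mul_iff_mul_eq, ← mul_assoc, ← mul_assoc, b2]
  have e4 : W.s 1 * W.s 2 * (W.s 1)⁻¹ = (W.s 2)⁻¹ * W.s 1 * W.s 2 := by
    rw [mul_inv_eq_iff_eq_mul, mul_assoc, mul_assoc, eq_inv_mul_iff_mul_eq, ← mul_assoc, ← mul_assoc, b1]
  have c13' : W.s 1 * (W.s 3)⁻¹ = (W.s 3)⁻¹ * W.s 1 := by
    rw [mul_inv_eq_iff_eq_mul, mul_assoc, eq_inv_mul_iff_mul_eq, c13]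
  have c13'' : W.s 3 * (W.s 1)⁻¹ = (W.s 1)⁻¹ * W.s 3 := by
    rw [mul_inv_eq_iff_eq_mul, mul_assoc, eq_inv_mul_iff_mul_eq, c13]
  rw [e2, e3]
  calc W.s 1 * ((W.s 3)⁻¹ * W.s 2 * W.s 3) * (W.s 1)⁻¹
      = (W.s 1 * (W.s 3)⁻¹) * W.s 2 * (W.s 3 * (W.s 1)⁻¹) := by group
    _ = ((W.s 3)⁻¹ * W.s 1) * W.s 2 * ((W.s 1)⁻¹ * W.s 3) := by rw [c13', c13'']
    _ = (W.s 3)⁻¹ * (W.s 1 * W.s 2 * (W.s 1)⁻¹) * W.s 3 := by group
    _ = (W.s 3)⁻¹ * ((W.s 2)⁻¹ * W.s 1 * W.s 2) * W.s 3 := by rw [e4]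
    _ = _ := by
      unfold gg
      group

/-- `delta * zeta * delta⁻¹ = zeta'` -/
theorem delta_zeta_conj (hk : 5 ≤ k) : W.delta * W.zeta * W.delta⁻¹ = W.zeta' := by
  have h3 := W.delta_s3_conj hk
  have h2 := W.delta_s2_conj hk
  have hg := W.gg_commute_s0 hk
  have hg' : W.gg⁻¹ * (W.s 0 * W.s 0) * W.gg = W.s 0 * W.s 0 := by
    have : Commute W.gg (W.s 0 * W.s 0) := hg.mul_right hg
    rw [mul_assoc, ← this.eq, inv_mul_cancel_left]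
  calc W.delta * W.zeta * W.delta⁻¹
      = (W.delta * W.s 3 * W.delta⁻¹) * (W.delta * W.s 2 * W.delta⁻¹) * (W.delta * W.s 2 * W.delta⁻¹) *
          (W.delta * W.s 3 * W.delta⁻¹) := by
        unfold zeta
        group
    _ = (W.gg * W.s 1 * W.gg⁻¹) * W.s 0 * W.s 0 * (W.gg * W.s 1 * W.gg⁻¹) := by rw [h3, h2]
    _ = W.gg * W.s 1 * (W.gg⁻¹ * (W.s 0 * W.s 0) * W.gg) * W.s 1 * W.gg⁻¹ := by group
    _ = W.gg * W.s 1 * (W.s 0 * W.s 0) * W.s 1 * W.gg⁻¹ := by rw [hg']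
    _ = W.gg * (W.s 1 * (W.s 0 * W.s 0) * W.s 1) * W.gg⁻¹ := by group
    _ = _ := rfl

/-- `delta⁻¹ * zeta' * delta = zeta` -/
theorem delta_inv_zeta' (hk : 5 ≤ k) : W.delta⁻¹ * W.zeta' * W.delta = W.zeta := by
  rw [← W.delta_zeta_conj hk]
  group

/-- `delta` commutes with `lam 4` -/
theorem delta_commute_lam4 (hk : 5 ≤ k) : Commute W.delta (W.lam 4) :=
  W.Bm_commute_lam (by omega) W.delta_mem_Bm

theorem delta_commute_T (m : ℕ) (hm : 4 ≤ m) (hmk : m ≤ k) : Commute W.delta (W.T m) :=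
  W.Bm_commute_T hmk (W.Bm_mono hm W.delta_mem_Bm)

theorem delta_commute_s (i : ℕ) (hi : 4 ≤ i) (hik : i + 1 < k) : Commute W.delta (W.s i) :=
  W.commute_of_Bm (fun j hj => W.commute_s j i (by omega) hik) W.delta_mem_Bm

/-- `delta⁻¹ * zeta * delta = zeta * zeta' * zeta⁻¹` -/
theorem delta_inv_zeta (hk : 5 ≤ k) : W.delta⁻¹ * W.zeta * W.delta = W.zeta * W.zeta' * W.zeta⁻¹ := by
  have h := (W.delta_commute_lam4 hk).eq
  rw [W.lam4_eq] at h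
  have h' := W.delta_inv_zeta' hk
  rw [eq_mul_inv_iff_mul_eq]
  nth_rewrite 2 [← h']
  calc W.delta⁻¹ * W.zeta * W.delta * (W.delta⁻¹ * W.zeta' * W.delta)
      = W.delta⁻¹ * (W.zeta * W.zeta' * W.delta) := by group
    _ = W.delta⁻¹ * (W.delta * (W.zeta * W.zeta')) := by rw [h]
    _ = W.zeta * W.zeta' := by group

/-- `T 3 = (s 0 * s 1 * s 0) ^ 2` -/
theorem T3_eq (W : WSys k Γ F) : W.T 3 = (W.s 0 * W.s 0) * (W.s 1 * (W.s 0 * W.s 0) * W.s 1) := by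
  change 1 * (W.s 0 * W.s 0) * (W.s 1 * (W.s 0 * W.s 0) * W.s 1) = _
  rw [one_mul]

/-- `delta² = T 4 * (s 0)⁻² * (s 2)⁻²` -/
theorem delta_sq (hk : 5 ≤ k) :
    W.delta * W.delta = W.T 4 * (W.s 0)⁻¹ * (W.s 0)⁻¹ * (W.s 2)⁻¹ * (W.s 2)⁻¹ := by
  have b0 := W.braid 0 (by omega)
  simp only [zero_add] at b0
  have c02 : W.s 0 * W.s 2 = W.s 2 * W.s 0 := W.comm 0 2 (by omega) (by omega)
  have hl0 : Commute (W.lam 3) (W.s 0) := W.lam_commute_near 3 (by omega) 0 (by omega)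
  have hl1 : Commute (W.lam 3) (W.s 1) := W.lam_commute_near 3 (by omega) 1 (by omega)
  have hl : Commute (W.lam 3) (W.s 0 * W.s 1 * W.s 0) := (hl0.mul_right hl1).mul_right hl0
  have hd0 := W.delta_s0 (by omega)
  have hd2 := W.delta_s2 (by omega)
  -- `D = s 0 * delta * s 0`
  have hD1 : W.s 0 * W.delta * W.s 0 = (W.s 0 * W.s 1 * W.s 0) * (W.s 2 * W.s 1 * W.s 0) := by
    unfold delta
    calc W.s 0 * (W.s 1 * W.s 2 * W.s 0 * W.s 1) * W.s 0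
        = W.s 0 * W.s 1 * (W.s 2 * W.s 0) * W.s 1 * W.s 0 := by group
      _ = W.s 0 * W.s 1 * (W.s 0 * W.s 2) * W.s 1 * W.s 0 := by rw [c02]
      _ = _ := by group
  have hD2 : W.s 0 * W.delta * W.s 0 = (W.s 0 * W.s 1 * W.s 2) * (W.s 0 * W.s 1 * W.s 0) := by
    unfold delta
    group
  have hlam3 : W.lam 3 = (W.s 2 * W.s 1 * W.s 0) * (W.s 0 * W.s 1 * W.s 2) := by
    change W.s 2 * (W.s 1 * (W.s 0 * W.s 0) * W.s 1) * W.s 2 = _
    group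
  have hDD : (W.s 0 * W.delta * W.s 0) * (W.s 0 * W.delta * W.s 0) = W.T 4 := by
    nth_rewrite 1 [hD1]
    rw [hD2]
    calc (W.s 0 * W.s 1 * W.s 0) * (W.s 2 * W.s 1 * W.s 0) * ((W.s 0 * W.s 1 * W.s 2) * (W.s 0 * W.s 1 * W.s 0))
        = (W.s 0 * W.s 1 * W.s 0) * ((W.s 2 * W.s 1 * W.s 0) * (W.s 0 * W.s 1 * W.s 2) *
            (W.s 0 * W.s 1 * W.s 0)) := by group
      _ = (W.s 0 * W.s 1 * W.s 0) * (W.lam 3 * (W.s 0 * W.s 1 * W.s 0)) := by rw [← hlam3]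
      _ = (W.s 0 * W.s 1 * W.s 0) * ((W.s 0 * W.s 1 * W.s 0) * W.lam 3) := by rw [hl.eq]
      _ = (W.s 0 * W.s 1 * W.s 0) * (W.s 0 * W.s 1 * W.s 0) * W.lam 3 := by group
      _ = W.s 0 * (W.s 1 * (W.s 0 * W.s 0) * W.s 1) * W.s 0 * W.lam 3 := by group
      _ = W.T 3 * W.lam 3 := by
        have hl2 : Commute (W.lam 2) (W.s 0) := W.lam_commute_near 2 (by omega) 0 le_rfl
        have hl2' : W.s 1 * (W.s 0 * W.s 0) * W.s 1 * W.s 0 = W.s 0 * (W.s 1 * (W.s 0 * W.s 0) * W.s 1) := hl2.eq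
        rw [W.T3_eq]
        congr 1
        calc W.s 0 * (W.s 1 * (W.s 0 * W.s 0) * W.s 1) * W.s 0
            = W.s 0 * (W.s 1 * (W.s 0 * W.s 0) * W.s 1 * W.s 0) := by group
          _ = W.s 0 * (W.s 0 * (W.s 1 * (W.s 0 * W.s 0) * W.s 1)) := by rw [hl2']
          _ = _ := by group
      _ = W.T 4 := rfl
  have h1 : W.s 0 * W.delta * W.s 0 = W.delta * (W.s 2 * W.s 0) := by
    rw [← hd2]
    group
  have h2 : (W.s 2 * W.s 0) * W.delta = W.delta * (W.s 2 * W.s 0) := by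
    calc (W.s 2 * W.s 0) * W.delta = W.s 2 * (W.s 0 * W.delta) := by group
      _ = W.s 2 * (W.delta * W.s 2) := by rw [hd2]
      _ = (W.s 2 * W.delta) * W.s 2 := by group
      _ = (W.delta * W.s 0) * W.s 2 := by rw [hd0]
      _ = W.delta * (W.s 0 * W.s 2) := by group
      _ = _ := by rw [c02]
  rw [← hDD, h1]
  symm
  calc W.delta * (W.s 2 * W.s 0) * (W.delta * (W.s 2 * W.s 0)) * (W.s 0)⁻¹ * (W.s 0)⁻¹ * (W.s 2)⁻¹ * (W.s 2)⁻¹
      = W.delta * ((W.s 2 * W.s 0) * W.delta) * (W.s 2 * W.s 0) * (W.s 0)⁻¹ * (W.s 0)⁻¹ * (W.s 2)⁻¹ * (W.s 2)⁻¹ := by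
        group
    _ = W.delta * (W.delta * (W.s 2 * W.s 0)) * (W.s 2 * W.s 0) * (W.s 0)⁻¹ * (W.s 0)⁻¹ * (W.s 2)⁻¹ * (W.s 2)⁻¹ := by
        rw [h2]
    _ = W.delta * W.delta * W.s 2 * (W.s 0 * W.s 2) * W.s 0 * (W.s 0)⁻¹ * (W.s 0)⁻¹ * (W.s 2)⁻¹ * (W.s 2)⁻¹ := by
        group
    _ = W.delta * W.delta * W.s 2 * (W.s 2 * W.s 0) * W.s 0 * (W.s 0)⁻¹ * (W.s 0)⁻¹ * (W.s 2)⁻¹ * (W.s 2)⁻¹ := by
        rw [c02]
    _ = W.delta * W.delta := by group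

/-! ### the subgroup `H` -/

theorem zeta_mem_L (hk : 5 ≤ k) : W.zeta ∈ W.L := by
  have h2 : W.s 2 ∈ W.L := W.s_mem_L (by omega) (by omega)
  have h3 : W.s 3 ∈ W.L := W.s_mem_L (by omega) (by omega)
  exact mul_mem (mul_mem (mul_mem h3 h2) h2) h3

theorem gg_mem_L (hk : 5 ≤ k) : W.gg ∈ W.L :=
  inv_mem (mul_mem (W.s_mem_L (by omega) (by omega)) (W.s_mem_L (by omega) (by omega)))

theorem zeta'_mem_L (hk : 5 ≤ k) : W.zeta' ∈ W.L :=
  mul_mem (mul_mem (W.gg_mem_L hk) W.lam2_mem_L) (inv_mem (W.gg_mem_L hk))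

theorem T4_mem_L (hk : 5 ≤ k) : W.T 4 ∈ W.L := W.T_mem_L 4 (by omega) (by omega)

theorem s0_mem_H : W.s 0 ∈ W.H := Subgroup.subset_closure (Or.inl (Or.inl rfl))

theorem s2_mem_H : W.s 2 ∈ W.H := Subgroup.subset_closure (Or.inl (Or.inr (Or.inl rfl)))

theorem T4_mem_H : W.T 4 ∈ W.H := Subgroup.subset_closure (Or.inl (Or.inr (Or.inr (Or.inl rfl))))

theorem zeta_mem_H : W.zeta ∈ W.H := Subgroup.subset_closure (Or.inl (Or.inr (Or.inr (Or.inr (Or.inl rfl)))))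

theorem zeta'_mem_H : W.zeta' ∈ W.H := Subgroup.subset_closure (Or.inl (Or.inr (Or.inr (Or.inr (Or.inr rfl)))))

theorem s_mem_H {i : ℕ} (hi : 4 ≤ i) (hik : i + 1 < k) : W.s i ∈ W.H :=
  Subgroup.subset_closure (Or.inr ⟨i, hi, hik, rfl⟩)

theorem lam_mem_H (j : ℕ) (hj : 4 ≤ j) (hjk : j < k) : W.lam j ∈ W.H := by
  induction j, hj using Nat.le_induction with
  | base =>
    rw [W.lam4_eq]
    exact mul_mem W.zeta_mem_H W.zeta'_mem_H
  | succ n hn ih =>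
    rw [W.lam_step]
    exact mul_mem (mul_mem (W.s_mem_H hn (by omega)) (ih (by omega))) (W.s_mem_H hn (by omega))

theorem T_mem_H (j : ℕ) (hj : 4 ≤ j) (hjk : j ≤ k) : W.T j ∈ W.H := by
  induction j, hj using Nat.le_induction with
  | base => exact W.T4_mem_H
  | succ n hn ih =>
    rw [W.T_step]
    exact mul_mem (ih (by omega)) (W.lam_mem_H n hn (by omega))

theorem H_le (hk : 5 ≤ k) {S : Subgroup Γ} (h0 : W.s 0 ∈ S) (h2 : W.s 2 ∈ S) (hT : W.T 4 ∈ S)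
    (hz : W.zeta ∈ S) (hz' : W.zeta' ∈ S) (hs : ∀ i, 4 ≤ i → i + 1 < k → W.s i ∈ S) : W.H ≤ S := by
  refine (Subgroup.closure_le _).2 ?_
  rintro x ((rfl | rfl | rfl | rfl | rfl) | ⟨i, hi, hik, rfl⟩)
  · exact h0
  · exact h2
  · exact hT
  · exact hz
  · exact hz'
  · exact hs i hi hik

theorem H_le_L (hk : 5 ≤ k) : W.H ≤ W.L :=
  W.H_le hk W.s0_mem_L (W.s_mem_L (by omega) (by omega)) (W.T4_mem_L hk) (W.zeta_mem_L hk) (W.zeta'_mem_L hk)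
    fun _ hi hik => W.s_mem_L (by omega) hik

/-- `H` centralises `s 0` -/
theorem H_commute_s0 (hk : 5 ≤ k) {g : Γ} (hg : g ∈ W.H) : Commute g (W.s 0) :=
  W.L_commute_s0 (by omega) (W.H_le_L hk hg)

/-- `H` centralises `s 2` -/
theorem H_commute_s2 (hk : 5 ≤ k) {g : Γ} (hg : g ∈ W.H) : Commute g (W.s 2) := by
  have h : W.H ≤ Subgroup.centralizer {W.s 2} := by
    refine W.H_le hk ?_ ?_ ?_ ?_ ?_ ?_
    · exact Subgroup.mem_centralizer_singleton_iff.2 (W.commute_s 0 2 (by omega) (by omega)).eq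
    · exact Subgroup.mem_centralizer_singleton_iff.2 rfl
    · exact Subgroup.mem_centralizer_singleton_iff.2 (W.T_commute_near 4 (by omega) 2 (by omega)).eq
    · exact Subgroup.mem_centralizer_singleton_iff.2 (W.zeta_commute_s2 hk).eq
    · exact Subgroup.mem_centralizer_singleton_iff.2 (W.zeta'_commute_s2 hk).eq
    · intro i hi hik
      exact Subgroup.mem_centralizer_singleton_iff.2 (W.commute_s 2 i (by omega) hik).symm.eq
  exact Subgroup.mem_centralizer_singleton_iff.1 (h hg)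

/-- conjugation by `delta` maps `H` to itself -/
theorem delta_conj_mem_H (hk : 5 ≤ k) {g : Γ} (hg : g ∈ W.H) : W.delta * g * W.delta⁻¹ ∈ W.H := by
  have h : W.H ≤ W.H.comap (MulAut.conj W.delta).toMonoidHom := by
    have hl : W.lam 4 ∈ W.H := W.lam_mem_H 4 le_rfl (by omega)
    refine W.H_le hk ?_ ?_ ?_ ?_ ?_ ?_
    · change W.delta * W.s 0 * W.delta⁻¹ ∈ W.H
      rw [W.delta_s0_conj hk]
      exact W.s2_mem_H
    · change W.delta * W.s 2 * W.delta⁻¹ ∈ W.H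
      rw [W.delta_s2_conj hk]
      exact W.s0_mem_H
    · change W.delta * W.T 4 * W.delta⁻¹ ∈ W.H
      rw [(W.delta_commute_T 4 le_rfl (by omega)).eq, mul_inv_cancel_right]
      exact W.T4_mem_H
    · change W.delta * W.zeta * W.delta⁻¹ ∈ W.H
      rw [W.delta_zeta_conj hk]
      exact W.zeta'_mem_H
    · change W.delta * W.zeta' * W.delta⁻¹ ∈ W.H
      have h1 : W.delta * W.zeta' * W.delta⁻¹ = (W.zeta')⁻¹ * W.lam 4 := by
        have h2 := (W.delta_commute_lam4 hk).eq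
        have h3 := W.delta_zeta_conj hk
        rw [eq_inv_mul_iff_mul_eq]
        nth_rewrite 1 [← h3]
        calc W.delta * W.zeta * W.delta⁻¹ * (W.delta * W.zeta' * W.delta⁻¹)
            = W.delta * (W.zeta * W.zeta') * W.delta⁻¹ := by group
          _ = W.delta * W.lam 4 * W.delta⁻¹ := by rw [W.lam4_eq]
          _ = W.lam 4 := by rw [h2, mul_inv_cancel_right]
      rw [h1]
      exact mul_mem (inv_mem W.zeta'_mem_H) hl
    · intro i hi hik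
      change W.delta * W.s i * W.delta⁻¹ ∈ W.H
      rw [(W.delta_commute_s i hi hik).eq, mul_inv_cancel_right]
      exact W.s_mem_H hi hik
  exact h hg

theorem delta_sq_mem_H (hk : 5 ≤ k) : W.delta * W.delta ∈ W.H := by
  rw [W.delta_sq hk]
  exact mul_mem (mul_mem (mul_mem (mul_mem W.T4_mem_H (inv_mem W.s0_mem_H)) (inv_mem W.s0_mem_H))
    (inv_mem W.s2_mem_H)) (inv_mem W.s2_mem_H)

/-- conjugation by `delta⁻¹` maps `H` to itself -/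
theorem delta_inv_conj_mem_H (hk : 5 ≤ k) {g : Γ} (hg : g ∈ W.H) : W.delta⁻¹ * g * W.delta ∈ W.H := by
  have h1 := W.delta_sq_mem_H hk
  have h2 : W.delta⁻¹ * g * W.delta =
      (W.delta * W.delta)⁻¹ * (W.delta * g * W.delta⁻¹) * (W.delta * W.delta) := by group
  rw [h2]
  exact mul_mem (mul_mem (inv_mem h1) (W.delta_conj_mem_H hk hg)) h1

end WSys

end LN6
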